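import Pool.Agent.N84.AF.Final

/-!
# MP_ee1e03_al: the discriminant exponent of the associated-form contravariant is one

For all `n ≥ 2` and `d ≥ 3`, every exponent `p_i` (`|i| = n (d - 2)`), and so `p (n, d)`, is `1`.

The statement says the following, over `ℂ`.

* There is a discriminant `Δ` of the forms of degree `d` in `n` variables: an irreducible polynomial
  in the coefficients vanishing exactly at the degenerate forms, those whose partial derivatives have
  a common zero different from `0`.
* For a nondegenerate form `f` and an exponent vector `i` of degree `n (d - 2)` there is exactly one
  number `μ_i (f)` with `z ^ i = μ_i (f) * H_f` modulo the ideal of the partial derivatives.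
* For every discriminant `Δ` and every `i`, the smallest integer `p` such that `Δ ^ p * μ_i` is a
  polynomial function of the coefficients of the form is `1`.

Outline of the proof. The value `μ_i (f)` is the value at `z ^ i` of the unique linear functional on
the forms of degree `n (d - 2)` that kills the ideal of the partial derivatives and takes the value
`1` at the Hessian. Near a form for which the ideal has codimension one in that degree, such a
functional is given by polynomials in the coefficients. The product `Δ ^ κ * μ` has, for a suitable
`κ`, polynomial entries not all divisible by `Δ`; the value at the Hessian shows that `Δ ^ κ` is,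
up to a constant, the value at the Hessian of this polynomial functional. At a general point of the
discriminant the functional is the evaluation at the singular point; there the first derivative of
the value at the Hessian does not vanish, which gives `κ ≤ 1`. The example used is a form with one
nondegenerate singular point. By homogeneity no nonzero `μ_i` is a polynomial, and no `μ_i` is
identically zero: this is seen at a Fermat form in suitable coordinates.
-/

namespace Pool.Agent.Results.MP_ee1e03_al.ExponentOne

open MvPolynomial Pool.Agent.N84.AF

theorem result (n d : ℕ) (hn : 2 ≤ n) (hd : 3 ≤ d) :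
    (∃ Δ : MvPolynomial (Expo (Fin n) d) ℂ, IsDiscriminant d Δ) ∧
    ∃ μ : Expo (Fin n) (n * (d - 2)) → MvPolynomial (Fin n) ℂ → ℂ,
      (∀ f : MvPolynomial (Fin n) ℂ, f.IsHomogeneous d → ¬ Degenerate f →
        ∀ (i : Expo (Fin n) (n * (d - 2))) (c : ℂ),
          (monomial i.1 1 - C c * hessian f ∈ gradIdeal f ↔ c = μ i f)) ∧
      ∀ Δ : MvPolynomial (Expo (Fin n) d) ℂ, IsDiscriminant d Δ →
        ∀ i : Expo (Fin n) (n * (d - 2)),
          IsLeast {p : ℤ | ∃ P : MvPolynomial (Expo (Fin n) d) ℂ,
            ∀ f : MvPolynomial (Fin n) ℂ, f.IsHomogeneous d → ¬ Degenerate f →
              value P f = value Δ f ^ p * μ i f} 1 := by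
  obtain ⟨h1, -, h3⟩ := final (K := ℂ) n d hn hd
  exact ⟨h1, h3⟩

end Pool.Agent.Results.MP_ee1e03_al.ExponentOne
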